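import Pool.Agent.R812.Markov

/-!
# Markov k-Menger spaces need not be Markov k-Rothberger
-/

set_option autoImplicit false

namespace Pool.Agent.Results.MP_41ff45_gt.MarkovMengerNotRothberger

open Pool.Agent.R812.Markov

/-- Negative answer: there is a `T₁` space which is Markov `k`-Menger but not Markov
`k`-Rothberger. -/
theorem result : ∃ (X : Type) (_ : TopologicalSpace X), T1Space X ∧
    MarkovKMenger X ∧ ¬ MarkovKRothberger X :=
  ⟨XX, inferInstance, inferInstance, markovKMenger, not_markovKRothberger⟩

end Pool.Agent.Results.MP_41ff45_gt.MarkovMengerNotRothberger
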