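import Mathlib

/-!
# A `T₁` Markov `k`-Menger space which is not Markov `k`-Rothberger
-/

open Set Filter

namespace Pool.Agent.Results.MP_41ff45_gt.MengerNotRothberger

universe u

section Defs

variable (X : Type u) [TopologicalSpace X]

/-- `k`-covers. -/
def IsKCover (𝒰 : Set (Set X)) : Prop :=
  (∀ U ∈ 𝒰, IsOpen U) ∧ ∀ K : Set X, IsCompact K → ∃ U ∈ 𝒰, K ⊆ U

/-- `X` is Markov `k`-Menger: P2 has a winning Markov strategy `σ` (round number and current
move of P1 to a finite subset of the current move) in `G_fin(𝒦,𝒦)`. -/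
def MarkovKMenger : Prop :=
  ∃ σ : ℕ → Set (Set X) → Set (Set X),
    (∀ n 𝒰, IsKCover X 𝒰 → (σ n 𝒰).Finite ∧ σ n 𝒰 ⊆ 𝒰) ∧
    ∀ 𝒰 : ℕ → Set (Set X), (∀ n, IsKCover X (𝒰 n)) → IsKCover X (⋃ n, σ n (𝒰 n))

/-- `X` is Markov `k`-Rothberger: P2 has a winning Markov strategy `σ` (round number and current
move of P1 to a member of the current move) in `G_1(𝒦,𝒦)`. -/
def MarkovKRothberger : Prop :=
  ∃ σ : ℕ → Set (Set X) → Set X,
    (∀ n 𝒰, IsKCover X 𝒰 → σ n 𝒰 ∈ 𝒰) ∧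
    ∀ 𝒰 : ℕ → Set (Set X), (∀ n, IsKCover X (𝒰 n)) → IsKCover X (range fun n => σ n (𝒰 n))

end Defs

/-- The levels of the space: the reals, and then successively the nonprincipal ultrafilters on
the previous level. -/
def L : ℕ → Type
  | 0 => ℝ
  | n + 1 => {u : Ultrafilter (L n) // ∀ y, u ≠ pure y}

/-- The ultrafilter given by a point of level `n + 1`. -/
def uf {n : ℕ} (u : L (n + 1)) : Ultrafilter (L n) := u.1

theorem singleton_notMem_uf {n : ℕ} (u : L (n + 1)) (y : L n) : {y} ∉ uf u := by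
  intro h
  apply u.2 y
  exact Ultrafilter.coe_le_coe.1 (le_pure_iff.2 h)

/-- The space. -/
abbrev X : Type := Σ n, L n

instance : TopologicalSpace X where
  IsOpen G := ∀ (n : ℕ) (u : L (n + 1)), (⟨n + 1, u⟩ : X) ∈ G → {y | (⟨n, y⟩ : X) ∈ G} ∈ uf u
  isOpen_univ := fun n u _ => Filter.univ_mem
  isOpen_inter := fun G G' hG hG' n u hu =>
    Filter.mem_of_superset (Filter.inter_mem (hG n u hu.1) (hG' n u hu.2)) fun _ hy => hy
  isOpen_sUnion := by
    rintro S hS n u ⟨G, hG, hu⟩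
    exact Filter.mem_of_superset (hS G hG n u hu) fun y hy => ⟨G, hG, hy⟩

theorem isOpen_X {G : Set X} : IsOpen G ↔ ∀ (n : ℕ) (u : L (n + 1)), (⟨n + 1, u⟩ : X) ∈ G →
    {y | (⟨n, y⟩ : X) ∈ G} ∈ uf u := Iff.rfl

instance : T1Space X := by
  refine ⟨fun p => ?_⟩
  rw [← isOpen_compl_iff, isOpen_X]
  intro n u _
  by_contra h
  have h1 : {y | (⟨n, y⟩ : X) ∈ ({p}ᶜ : Set X)}ᶜ ∈ uf u := Ultrafilter.compl_mem_iff_notMem.2 h
  obtain ⟨y, hy⟩ := Ultrafilter.nonempty_of_mem h1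
  have hy' : (⟨n, y⟩ : X) = p := by simpa using hy
  apply singleton_notMem_uf u y
  refine Filter.mem_of_superset h1 fun z hz => ?_
  have hz' : (⟨n, z⟩ : X) = p := by simpa using hz
  rw [← hy'] at hz'
  exact (sigma_mk_injective hz' : z = y)

/-! ## Selecting finitely many members of an `ω`-cover -/

/-- Every ultrafilter on `X` which is concentrated on finitely many levels is below the
neighbourhoods of some point. -/
theorem exists_point (w : Ultrafilter X) (n : ℕ) (hw : {p : X | p.1 ≤ n} ∈ w) :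
    ∃ p : X, ∀ U : Set X, IsOpen U → p ∈ U → U ∈ w := by
  have h1 : (⋃ m ∈ Iic n, {p : X | p.1 = m}) ∈ w := by
    refine Filter.mem_of_superset hw fun p hp => ?_
    exact mem_iUnion₂.2 ⟨p.1, hp, rfl⟩
  rw [Ultrafilter.finite_biUnion_mem_iff (finite_Iic n)] at h1
  obtain ⟨m, _, hm⟩ := h1
  have hinj : Function.Injective (fun y : L m => (⟨m, y⟩ : X)) := sigma_mk_injective
  have hlarge : range (fun y : L m => (⟨m, y⟩ : X)) ∈ w := by
    refine Filter.mem_of_superset hm ?_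
    rintro ⟨m', y⟩ rfl
    exact ⟨y, rfl⟩
  let v : Ultrafilter (L m) := Ultrafilter.comap w hinj hlarge
  have hv : ∀ U : Set X, {y | (⟨m, y⟩ : X) ∈ U} ∈ v → U ∈ w := by
    intro U hU
    have h2 : (fun y : L m => (⟨m, y⟩ : X)) '' {y | (⟨m, y⟩ : X) ∈ U} ∈ w :=
      (Ultrafilter.mem_comap w hinj hlarge).1 hU
    refine Filter.mem_of_superset h2 ?_
    rintro _ ⟨y, hy, rfl⟩
    exact hy
  by_cases hp : ∃ y, v = pure y
  · obtain ⟨y, hy⟩ := hp
    refine ⟨⟨m, y⟩, fun U _ hU => hv U ?_⟩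
    rw [hy]
    exact hU
  · push Not at hp
    exact ⟨⟨m + 1, ⟨v, hp⟩⟩, fun U hUo hU => hv U (hUo m ⟨v, hp⟩ hU)⟩

theorem select (𝒰 : Set (Set X)) (ho : ∀ U ∈ 𝒰, IsOpen U)
    (hω : ∀ K : Set X, K.Finite → ∃ U ∈ 𝒰, K ⊆ U) (n k : ℕ) :
    ∃ 𝓕 ⊆ 𝒰, 𝓕.Finite ∧ ∀ t : Fin k → X, (∀ i, (t i).1 ≤ n) → ∃ U ∈ 𝓕, ∀ i, t i ∈ U := by
  by_contra hcon
  push Not at hcon
  let A : Set X → Set (Fin k → X) := fun U => {t | (∀ i, (t i).1 ≤ n) ∧ ∃ i, t i ∉ U}
  have hne : NeBot (generate (A '' 𝒰)) := by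
    rw [generate_neBot_iff]
    intro T hT hfin
    obtain ⟨𝓕, h𝓕, hfin', rfl⟩ := exists_subset_image_finite_and.1 ⟨T, hT, hfin, rfl⟩
    obtain ⟨t, ht, ht'⟩ := hcon 𝓕 h𝓕 hfin'
    refine ⟨t, ?_⟩
    rintro _ ⟨U, hU, rfl⟩
    exact ⟨ht, ht' U hU⟩
  obtain ⟨w, hw⟩ := Ultrafilter.exists_le (generate (A '' 𝒰))
  have hA : ∀ U ∈ 𝒰, A U ∈ w := fun U hU => hw (mem_generate_of_mem ⟨U, hU, rfl⟩)
  obtain ⟨U₀, hU₀, -⟩ := hω ∅ finite_empty
  have hlev : ∀ i, {p : X | p.1 ≤ n} ∈ w.map (fun t => t i) := by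
    intro i
    rw [Ultrafilter.mem_map]
    exact Filter.mem_of_superset (hA U₀ hU₀) fun t ht => ht.1 i
  choose p hp using fun i => exists_point (w.map fun t => t i) n (hlev i)
  obtain ⟨U, hU, hpU⟩ := hω (range p) (finite_range p)
  have h1 : (⋂ i, {t : Fin k → X | t i ∈ U}) ∈ (w : Filter (Fin k → X)) := by
    rw [iInter_mem]
    intro i
    exact hp i U (ho U hU) (hpU ⟨i, rfl⟩)
  obtain ⟨t, ht1, ht2⟩ := Ultrafilter.nonempty_of_mem (Filter.inter_mem h1 (hA U hU))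
  obtain ⟨i, hi⟩ := ht2.2
  exact hi (mem_iInter.1 ht1 i)

theorem select_finset (𝒰 : Set (Set X)) (ho : ∀ U ∈ 𝒰, IsOpen U)
    (hω : ∀ K : Set X, K.Finite → ∃ U ∈ 𝒰, K ⊆ U) (n k : ℕ) :
    ∃ 𝓕 ⊆ 𝒰, 𝓕.Finite ∧ ∀ K : Finset X, K.card ≤ k → (∀ p ∈ K, p.1 ≤ n) →
      ∃ U ∈ 𝓕, (K : Set X) ⊆ U := by
  obtain ⟨𝓕, h1, h2, h3⟩ := select 𝒰 ho hω n k
  refine ⟨𝓕, h1, h2, fun K hK hn => ?_⟩
  let z : X := ⟨0, (0 : ℝ)⟩
  obtain ⟨U, hU, ht⟩ := h3 (fun i => K.toList.getD i z) (by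
    intro i
    by_cases hi : (i : ℕ) < K.toList.length
    · rw [List.getD_eq_getElem _ _ hi]
      exact hn _ (Finset.mem_toList.1 (List.getElem_mem hi))
    · rw [List.getD_eq_default _ _ (not_lt.1 hi)]
      exact Nat.zero_le n)
  refine ⟨U, hU, fun p hp => ?_⟩
  obtain ⟨j, hj, rfl⟩ := List.getElem_of_mem (Finset.mem_toList.2 (Finset.mem_coe.1 hp))
  have hjk : j < k := by
    rw [Finset.length_toList] at hj
    omega
  have h4 := ht ⟨j, hjk⟩
  rwa [List.getD_eq_getElem _ _ hj] at h4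

/-! ## Compact sets are finite -/

/-- The closure of a set, level by level. -/
def cl (E : Set X) : (n : ℕ) → Set (L n)
  | 0 => {y | (⟨0, y⟩ : X) ∈ E}
  | n + 1 => {u | (⟨n + 1, u⟩ : X) ∈ E ∨ cl E n ∈ uf u}

/-- The closure of a set. -/
def H (E : Set X) : Set X := {p | p.2 ∈ cl E p.1}

theorem mem_H {E : Set X} {n : ℕ} {y : L n} : (⟨n, y⟩ : X) ∈ H E ↔ y ∈ cl E n := Iff.rfl

theorem subset_H (E : Set X) : E ⊆ H E := by
  rintro ⟨n, y⟩ hy
  cases n
  · exact hy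
  · exact Or.inl hy

theorem isClosed_H (E : Set X) : IsClosed (H E) := by
  rw [← isOpen_compl_iff, isOpen_X]
  intro n u hu
  have h1 : cl E n ∉ uf u := fun h => hu (Or.inr h)
  exact Ultrafilter.compl_mem_iff_notMem.2 h1

theorem cl_mono {E E' : Set X} (h : E ⊆ E') : ∀ n, cl E n ⊆ cl E' n
  | 0 => fun _ hy => h hy
  | n + 1 => fun _ hu => hu.imp (fun h1 => h h1) fun h1 =>
      Filter.mem_of_superset h1 (cl_mono h n)

theorem H_mono {E E' : Set X} (h : E ⊆ E') : H E ⊆ H E' := fun p hp => cl_mono h p.1 hp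

theorem cl_lower {E : Set X} {m : ℕ} (hE : ∀ p ∈ E, p.1 = m) : ∀ n < m, cl E n = ∅
  | 0, hn => by
      ext y
      refine ⟨fun hy => ?_, fun hy => absurd hy (notMem_empty _)⟩
      have h1 : (0 : ℕ) = m := hE _ hy
      omega
  | n + 1, hn => by
      ext u
      refine ⟨fun hu => ?_, fun hu => absurd hu (notMem_empty _)⟩
      rcases hu with hu | hu
      · have h1 : n + 1 = m := hE _ hu
        omega
      · rw [cl_lower hE n (by omega)] at hu
        exact absurd hu (Ultrafilter.empty_notMem)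

theorem cl_self {E : Set X} {m : ℕ} (hE : ∀ p ∈ E, p.1 = m) {y : L m} (hy : y ∈ cl E m) :
    (⟨m, y⟩ : X) ∈ E := by
  cases m with
  | zero => exact hy
  | succ m =>
    rcases hy with hy | hy
    · exact hy
    · rw [cl_lower hE m (by omega)] at hy
      exact absurd hy (Ultrafilter.empty_notMem)

theorem cl_disjoint {E E' : Set X} {m : ℕ} (hE : ∀ p ∈ E, p.1 = m) (hE' : ∀ p ∈ E', p.1 = m)
    (h : Disjoint E E') : ∀ n, Disjoint (cl E n) (cl E' n)
  | 0 => by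
      rw [Set.disjoint_left]
      intro y hy hy'
      exact Set.disjoint_left.1 h hy hy'
  | n + 1 => by
      rw [Set.disjoint_left]
      rintro u (hu | hu) (hu' | hu')
      · exact Set.disjoint_left.1 h hu hu'
      · have h1 : n + 1 = m := hE _ hu
        rw [cl_lower hE' n (by omega)] at hu'
        exact absurd hu' (Ultrafilter.empty_notMem)
      · have h1 : n + 1 = m := hE' _ hu'
        rw [cl_lower hE n (by omega)] at hu
        exact absurd hu (Ultrafilter.empty_notMem)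
      · have h1 := Filter.inter_mem hu hu'
        rw [Set.disjoint_iff_inter_eq_empty.1 (cl_disjoint hE hE' h n)] at h1
        exact absurd h1 (Ultrafilter.empty_notMem)

theorem H_disjoint {E E' : Set X} {m : ℕ} (hE : ∀ p ∈ E, p.1 = m) (hE' : ∀ p ∈ E', p.1 = m)
    (h : Disjoint E E') : Disjoint (H E) (H E') := by
  rw [Set.disjoint_left]
  intro p hp hp'
  exact Set.disjoint_left.1 (cl_disjoint hE hE' h p.1) hp hp'

theorem isOpen_level_le (n : ℕ) : IsOpen {p : X | p.1 ≤ n} := by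
  rw [isOpen_X]
  intro m u hu
  refine Filter.mem_of_superset Filter.univ_mem fun y _ => ?_
  have h1 : m + 1 ≤ n := hu
  change m ≤ n
  omega

theorem compact_bounded {K : Set X} (hK : IsCompact K) : ∃ n, ∀ p ∈ K, p.1 ≤ n := by
  obtain ⟨t, ht⟩ := hK.elim_finite_subcover (fun n : ℕ => {p : X | p.1 ≤ n}) isOpen_level_le
    (fun p _ => mem_iUnion.2 ⟨p.1, le_refl p.1⟩)
  refine ⟨t.sup id, fun p hp => ?_⟩
  obtain ⟨n, hn, hpn⟩ := mem_iUnion₂.1 (ht hp)
  exact le_trans hpn (Finset.le_sup (f := id) hn)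

theorem compact_finite {K : Set X} (hK : IsCompact K) : K.Finite := by
  classical
  by_contra hinf
  have hinf : K.Infinite := hinf
  obtain ⟨n, hn⟩ := compact_bounded hK
  -- the last level on which `K` is infinite
  let P : ℕ → Prop := fun m => {p | p ∈ K ∧ p.1 = m}.Infinite
  have hex : ∃ m ≤ n, P m := by
    by_contra hcon
    push Not at hcon
    apply hinf
    have h1 : K ⊆ ⋃ m ∈ Iic n, {p | p ∈ K ∧ p.1 = m} := fun p hp =>
      mem_iUnion₂.2 ⟨p.1, hn p hp, hp, rfl⟩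
    refine ((finite_Iic n).biUnion fun m hm => ?_).subset h1
    exact not_infinite.1 (hcon m hm)
  obtain ⟨m₀, hm₀, hPm₀⟩ := hex
  let m := Nat.findGreatest P n
  have hm : P m := Nat.findGreatest_spec hm₀ hPm₀
  have hgt : ∀ j, m < j → ¬ P j := by
    intro j hj hPj
    by_cases hjn : j ≤ n
    · exact absurd (Nat.le_findGreatest hjn hPj) (not_le.2 hj)
    · obtain ⟨p, hp⟩ := hPj.nonempty
      have h1 := hn p hp.1
      have h2 : p.1 = j := hp.2
      omega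
  let Φ : Set X := {p | p ∈ K ∧ m < p.1}
  have hΦ : Φ.Finite := by
    have h1 : Φ ⊆ ⋃ j ∈ Ioc m n, {p | p ∈ K ∧ p.1 = j} := fun p hp =>
      mem_iUnion₂.2 ⟨p.1, ⟨hp.2, hn p hp.1⟩, hp.1, rfl⟩
    refine ((finite_Ioc m n).biUnion fun j hj => ?_).subset h1
    exact not_infinite.1 (hgt j hj.1)
  -- infinitely many disjoint infinite subsets of the level
  let g := hm.natEmbedding
  let D : ℕ → Set X := fun i => range fun k => (g (Nat.pair i k) : X)
  have hDm : ∀ i, ∀ p ∈ D i, p.1 = m := by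
    rintro i _ ⟨k, rfl⟩
    exact (g (Nat.pair i k)).2.2
  have hDK : ∀ i, D i ⊆ K := by
    rintro i _ ⟨k, rfl⟩
    exact (g (Nat.pair i k)).2.1
  have hDdisj : ∀ i j, i ≠ j → Disjoint (D i) (D j) := by
    intro i j hij
    rw [Set.disjoint_left]
    rintro _ ⟨k, rfl⟩ ⟨l, hl⟩
    have h1 := g.injective (Subtype.ext hl)
    exact hij ((Nat.pair_eq_pair.1 h1).1).symm
  have hDinf : ∀ i, (D i).Infinite := by
    intro i
    refine Set.infinite_range_of_injective ?_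
    intro k l hkl
    have h1 := g.injective (Subtype.ext hkl)
    exact (Nat.pair_eq_pair.1 h1).2
  obtain ⟨i, hi⟩ : ∃ i, Disjoint (H (D i)) Φ := by
    by_contra hcon
    push Not at hcon
    have h1 : ∀ i, ∃ p ∈ Φ, p ∈ H (D i) := by
      intro i
      obtain ⟨p, hp1, hp2⟩ := Set.not_disjoint_iff.1 (hcon i)
      exact ⟨p, hp2, hp1⟩
    choose p hpΦ hpH using h1
    have hinj : Function.Injective p := by
      intro i j hij
      by_contra hne
      refine Set.disjoint_left.1 (H_disjoint (hDm i) (hDm j) (hDdisj i j hne)) (hpH i) ?_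
      rw [hij]
      exact hpH j
    exact (Set.infinite_range_of_injective hinj) (hΦ.subset (by rintro _ ⟨i, rfl⟩; exact hpΦ i))
  -- all subsets of `D i` are relatively closed in `K`
  have hrel : ∀ S ⊆ D i, ∀ p ∈ K, p ∈ H S → p ∈ S := by
    rintro S hS ⟨j, y⟩ hpK hpH
    have hSm : ∀ p ∈ S, p.1 = m := fun p hp => hDm i p (hS hp)
    rcases lt_trichotomy j m with hj | hj | hj
    · rw [mem_H, cl_lower hSm j hj] at hpH
      exact absurd hpH (notMem_empty _)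
    · subst hj
      exact cl_self hSm hpH
    · exact absurd (⟨hpK, hj⟩ : (⟨j, y⟩ : X) ∈ Φ) (Set.disjoint_left.1 hi (H_mono hS hpH))
  obtain ⟨t, ht⟩ := hK.elim_finite_subcover (fun d : D i => (H (D i \ {d.1}))ᶜ)
    (fun d => (isClosed_H _).isOpen_compl) (by
      intro p hp
      by_cases hpD : p ∈ D i
      · refine mem_iUnion.2 ⟨⟨p, hpD⟩, fun h => ?_⟩
        exact (hrel _ sdiff_subset p hp h).2 rfl
      · obtain ⟨d, hd⟩ := (hDinf i).nonempty
        refine mem_iUnion.2 ⟨⟨d, hd⟩, fun h => ?_⟩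
        exact hpD (hrel _ sdiff_subset p hp h).1)
  obtain ⟨d, hd, hdt⟩ := (hDinf i).exists_notMem_finset (t.image Subtype.val)
  obtain ⟨d', hd', hdd'⟩ := mem_iUnion₂.1 (ht (hDK i hd))
  apply hdd'
  apply subset_H
  refine ⟨hd, ?_⟩
  rintro rfl
  exact hdt (Finset.mem_image.2 ⟨d', hd', rfl⟩)

/-! ## The games -/

theorem IsKCover.finite {𝒰 : Set (Set X)} (h : IsKCover X 𝒰) (K : Set X) (hK : K.Finite) :
    ∃ U ∈ 𝒰, K ⊆ U := h.2 K hK.isCompact

theorem menger : MarkovKMenger X := by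
  classical
  have h1 : ∀ (n : ℕ) (𝒰 : Set (Set X)), ∃ 𝓕 : Set (Set X), IsKCover X 𝒰 →
      (𝓕 ⊆ 𝒰 ∧ 𝓕.Finite ∧ ∀ K : Finset X, K.card ≤ n → (∀ p ∈ K, p.1 ≤ n) →
      ∃ U ∈ 𝓕, (K : Set X) ⊆ U) := by
    intro n 𝒰
    by_cases h : IsKCover X 𝒰
    · obtain ⟨𝓕, h1, h2, h3⟩ := select_finset 𝒰 h.1 h.finite n n
      exact ⟨𝓕, fun _ => ⟨h1, h2, h3⟩⟩
    · exact ⟨∅, fun h' => absurd h' h⟩
  choose σ hσ using h1
  refine ⟨σ, fun n 𝒰 h => ⟨(hσ n 𝒰 h).2.1, (hσ n 𝒰 h).1⟩, fun 𝒰 h𝒰 => ⟨?_, ?_⟩⟩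
  · intro U hU
    obtain ⟨n, hn⟩ := mem_iUnion.1 hU
    exact (h𝒰 n).1 U ((hσ n _ (h𝒰 n)).1 hn)
  · intro K hK
    obtain ⟨b, hb⟩ := compact_bounded hK
    have hfin := compact_finite hK
    let n := max b hfin.toFinset.card
    obtain ⟨U, hU, hKU⟩ := (hσ n _ (h𝒰 n)).2.2 hfin.toFinset (le_max_right _ _)
      (fun p hp => (hb p (hfin.mem_toFinset.1 hp)).trans (le_max_left _ _))
    rw [hfin.coe_toFinset] at hKU
    exact ⟨U, mem_iUnion.2 ⟨n, hU⟩, hKU⟩

theorem not_rothberger : ¬ MarkovKRothberger X := by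
  rintro ⟨σ, hσ, hwin⟩
  let S : ℕ → Set X := fun n => {x | ∀ 𝒰, IsKCover X 𝒰 → x ∈ σ n 𝒰}
  have hcov : ∀ x, ∃ n, x ∈ S n := by
    intro x
    by_contra hcon
    push Not at hcon
    have h1 : ∀ n, ∃ 𝒰, IsKCover X 𝒰 ∧ x ∉ σ n 𝒰 := by
      intro n
      have := hcon n
      simp only [S, mem_ofPred_eq] at this
      push Not at this
      exact this
    choose 𝒰 h𝒰 hx using h1
    obtain ⟨U, ⟨n, hn⟩, hU⟩ := (hwin 𝒰 h𝒰).2 {x} isCompact_singleton
    apply hx n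
    change σ n (𝒰 n) = U at hn
    rw [hn]
    exact hU rfl
  have hinf : ∃ n, (S n).Infinite := by
    by_contra hcon
    push Not at hcon
    have h1 : (univ : Set X).Countable := by
      have h2 : (univ : Set X) = ⋃ n, S n :=
        (eq_univ_of_forall fun x => mem_iUnion.2 (hcov x)).symm
      rw [h2]
      exact countable_iUnion fun n => (hcon n).countable
    have h3 : (univ : Set ℝ).Countable := by
      have h4 : Function.Injective (fun r : ℝ => (⟨0, (r : L 0)⟩ : X)) :=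
        fun a b hab => sigma_mk_injective (β := L) hab
      have h5 := h1.preimage_of_injOn (f := fun r : ℝ => (⟨0, (r : L 0)⟩ : X)) h4.injOn
      exact h5
    exact Set.not_countable_univ h3
  obtain ⟨n, hn⟩ := hinf
  let 𝒱 : Set (Set X) := (fun s => ({s}ᶜ : Set X)) '' S n
  have h𝒱 : IsKCover X 𝒱 := by
    refine ⟨?_, ?_⟩
    · rintro _ ⟨s, _, rfl⟩
      exact isOpen_compl_singleton
    · intro K hK
      obtain ⟨s, hs, hsK⟩ := hn.exists_notMem_finite (compact_finite hK)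
      refine ⟨_, ⟨s, hs, rfl⟩, ?_⟩
      rintro x hx rfl
      exact hsK hx
  obtain ⟨s, hs, hs'⟩ := hσ n 𝒱 h𝒱
  have h1 : s ∈ σ n 𝒱 := hs 𝒱 h𝒱
  rw [← hs'] at h1
  exact h1 rfl

/-- There is a `T₁` space, all of whose compact subsets are finite, which is Markov `k`-Menger
but not Markov `k`-Rothberger. -/
theorem result : ∃ (X : Type) (_ : TopologicalSpace X), T1Space X ∧
    (∀ K : Set X, IsCompact K → K.Finite) ∧ MarkovKMenger X ∧ ¬ MarkovKRothberger X :=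
  ⟨X, inferInstance, inferInstance, fun _ hK => compact_finite hK, menger, not_rothberger⟩

end Pool.Agent.Results.MP_41ff45_gt.MengerNotRothberger
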